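import Pool.Agent.H42.CapBall
import Pool.Agent.H42.CapWit

/-!
# Isodiametric logarithmic capacity: symmetry is broken in dimensions three and four

In `ℝ³` and in `ℝ⁴` there is a compact set of diameter `2` (a finite union of circles in parallel
planes) whose logarithmic capacity is larger than that of the closed unit ball.
-/

open MeasureTheory Set Filter Topology Function
open scoped ENNReal

namespace Pool.Agent.Results.MP_42a974_an.SymmBroken

open Pool.Agent.H42.Cap

/-- The integral of a function with values in `[-∞, ∞]`: the integral of the positive part minus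
the integral of the negative part. -/
noncomputable def eintegral {α : Type*} [MeasurableSpace α] (μ : Measure α) (f : α → EReal) :
    EReal :=
  ((∫⁻ x, (f x).toENNReal ∂μ : ℝ≥0∞) : EReal) - ((∫⁻ x, (-f x).toENNReal ∂μ : ℝ≥0∞) : EReal)

/-- The logarithmic energy `I(μ) = ∬ log (1 / |x - y|) dμ(x) dμ(y)`, where `log (1 / 0) = ∞`. -/
noncomputable def logEnergy {E : Type*} [MetricSpace E] [MeasurableSpace E] (μ : Measure E) :
    EReal :=
  eintegral (μ.prod μ) (fun p => ENNReal.log (edist p.1 p.2)⁻¹)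

/-- The logarithmic capacity `exp (- inf I(μ))`, the infimum being over the Borel probability
measures `μ` carried by `K`. -/
noncomputable def logCap {E : Type*} [MetricSpace E] [MeasurableSpace E] (K : Set E) : ℝ≥0∞ :=
  EReal.exp (-⨅ μ ∈ {μ : Measure E | IsProbabilityMeasure μ ∧ μ Kᶜ = 0}, logEnergy μ)

/-- Symmetry is broken in dimension `n`: some compact set of diameter `2` in `ℝⁿ` has larger
logarithmic capacity than the closed unit ball. -/
def SymmetryBroken (n : ℕ) : Prop :=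
  ∃ K : Set (EuclideanSpace ℝ (Fin n)), IsCompact K ∧ Metric.diam K = 2 ∧
    logCap (Metric.closedBall (0 : EuclideanSpace ℝ (Fin n)) 1) < logCap K

section Bridge

variable {E : Type*} [NormedAddCommGroup E] [InnerProductSpace ℝ E] [FiniteDimensional ℝ E]
  [MeasurableSpace E] [BorelSpace E]

omit [InnerProductSpace ℝ E] [FiniteDimensional ℝ E] [MeasurableSpace E] [BorelSpace E] in
theorem pointwise {x y : E} (h : dist x y ≤ 2) :
    (ENNReal.log (edist x y)⁻¹).toENNReal + ENNReal.ofReal (Real.log 2) =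
      lk x y + (-ENNReal.log (edist x y)⁻¹).toENNReal ∧
    (-ENNReal.log (edist x y)⁻¹).toENNReal ≤ ENNReal.ofReal (Real.log 2) := by
  have hlog2 : 0 < Real.log 2 := Real.log_pos (by norm_num)
  rcases eq_or_ne x y with rfl | hxy
  · rw [edist_self, ENNReal.inv_zero, ENNReal.log_top, lk, if_pos rfl]
    simp
  · have hd : 0 < dist x y := dist_pos.2 hxy
    have h1 : (edist x y)⁻¹ = ENNReal.ofReal (dist x y)⁻¹ := by
      rw [edist_dist, ENNReal.ofReal_inv_of_pos hd]
    have h2 : ENNReal.log (edist x y)⁻¹ = ((-Real.log (dist x y) : ℝ) : EReal) := by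
      rw [h1, ENNReal.log_ofReal_of_pos (by positivity), Real.log_inv]
    have h3 : -ENNReal.log (edist x y)⁻¹ = ((Real.log (dist x y) : ℝ) : EReal) := by
      rw [h2, ← EReal.coe_neg, neg_neg]
    have h4 : Real.log (dist x y) ≤ Real.log 2 := Real.log_le_log hd h
    have h5 : lk x y = ENNReal.ofReal (Real.log 2 - Real.log (dist x y)) := by
      rw [lk, if_neg hxy, ← dist_eq_norm, Real.log_div (by norm_num) hd.ne']
    have h6 : ∀ a : ℝ, ((a : ℝ) : EReal).toENNReal = ENNReal.ofReal a := by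
      intro a
      rw [EReal.toENNReal_of_ne_top (EReal.coe_ne_top a), EReal.toReal_coe]
    rw [h3, h2, h5, h6, h6]
    refine ⟨?_, ENNReal.ofReal_le_ofReal h4⟩
    rcases le_total 0 (Real.log (dist x y)) with h7 | h7
    · rw [ENNReal.ofReal_of_nonpos (by linarith : -Real.log (dist x y) ≤ 0), zero_add,
        ← ENNReal.ofReal_add (by linarith) h7]
      congr 1
      ring
    · rw [ENNReal.ofReal_of_nonpos h7, add_zero, ← ENNReal.ofReal_add (by linarith) hlog2.le]
      congr 1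
      ring

/-- On sets of diameter at most two the energy is the normalised energy minus `log 2`. -/
theorem logEnergy_eq {K : Set E} (hK : ∀ x ∈ K, ∀ y ∈ K, dist x y ≤ 2) (μ : Measure E)
    [IsProbabilityMeasure μ] (hμ : μ Kᶜ = 0) :
    logEnergy μ = ((∫⁻ x, ∫⁻ y, lk x y ∂μ ∂μ : ℝ≥0∞) : EReal) - ((Real.log 2 : ℝ) : EReal) := by
  have hlog2 : 0 < Real.log 2 := Real.log_pos (by norm_num)
  have hae : ∀ᵐ x ∂μ, x ∈ K := by
    rw [ae_iff]; exact hμ
  have hae2 : ∀ᵐ p ∂(μ.prod μ), p.1 ∈ K ∧ p.2 ∈ K := by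
    have h1 : ∀ᵐ p ∂(μ.prod μ), p.1 ∈ K :=
      Measure.quasiMeasurePreserving_fst.ae hae
    have h2 : ∀ᵐ p ∂(μ.prod μ), p.2 ∈ K :=
      Measure.quasiMeasurePreserving_snd.ae hae
    filter_upwards [h1, h2] with p h1 h2
    exact ⟨h1, h2⟩
  have hm1 : Measurable (fun p : E × E => (ENNReal.log (edist p.1 p.2)⁻¹).toENNReal) := by
    fun_prop
  have hm2 : Measurable (fun p : E × E => (-ENNReal.log (edist p.1 p.2)⁻¹).toENNReal) := by
    have : Measurable (fun p : E × E => ENNReal.log (edist p.1 p.2)⁻¹) := by fun_prop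
    exact (continuous_neg.measurable.comp this).ereal_toENNReal
  have hm3 : Measurable (fun p : E × E => lk p.1 p.2) := measurable_lk
  set P : ℝ≥0∞ := ∫⁻ p, (ENNReal.log (edist p.1 p.2)⁻¹).toENNReal ∂(μ.prod μ) with hP
  set N : ℝ≥0∞ := ∫⁻ p, (-ENNReal.log (edist p.1 p.2)⁻¹).toENNReal ∂(μ.prod μ) with hN
  have hJ : ∫⁻ x, ∫⁻ y, lk x y ∂μ ∂μ = ∫⁻ p, lk p.1 p.2 ∂(μ.prod μ) :=
    (lintegral_prod (fun p : E × E => lk p.1 p.2) hm3.aemeasurable).symm
  rw [hJ]
  set J : ℝ≥0∞ := ∫⁻ p, lk p.1 p.2 ∂(μ.prod μ) with hJd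
  have hNle : N ≤ ENNReal.ofReal (Real.log 2) := by
    calc N ≤ ∫⁻ _, ENNReal.ofReal (Real.log 2) ∂(μ.prod μ) :=
          lintegral_mono_ae (hae2.mono fun p hp => (pointwise (hK _ hp.1 _ hp.2)).2)
      _ = _ := by rw [lintegral_const, measure_univ, mul_one]
  have hsum : P + ENNReal.ofReal (Real.log 2) = J + N := by
    have h1 : ∫⁻ p, ((ENNReal.log (edist p.1 p.2)⁻¹).toENNReal + ENNReal.ofReal (Real.log 2))
        ∂(μ.prod μ) = ∫⁻ p, (lk p.1 p.2 + (-ENNReal.log (edist p.1 p.2)⁻¹).toENNReal)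
        ∂(μ.prod μ) :=
      lintegral_congr_ae (hae2.mono fun p hp => (pointwise (hK _ hp.1 _ hp.2)).1)
    rw [lintegral_add_left hm1, lintegral_add_left hm3, lintegral_const, measure_univ,
      mul_one] at h1
    exact h1
  have hE : logEnergy μ = (P : EReal) - (N : EReal) := rfl
  rw [hE]
  clear_value P N J
  have hNt : N ≠ ∞ := ne_top_of_le_ne_top ENNReal.ofReal_ne_top hNle
  rcases eq_or_ne J ∞ with hJt | hJt
  · have hPt : P = ∞ := by
      rw [hJt, top_add] at hsum
      by_contra h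
      exact (ENNReal.add_ne_top.2 ⟨h, ENNReal.ofReal_ne_top⟩) hsum
    rw [hJt, hPt]
    have h1 : ((N : ℝ≥0∞) : EReal) = ((N.toReal : ℝ) : EReal) := by
      rw [← EReal.coe_ennreal_toReal hNt]
    rw [h1, EReal.coe_ennreal_top, EReal.top_sub_coe, EReal.top_sub_coe]
  · have hPt : P ≠ ∞ := by
      rintro rfl
      rw [top_add] at hsum
      exact (ENNReal.add_ne_top.2 ⟨hJt, hNt⟩) hsum.symm
    have h1 : P.toReal + Real.log 2 = J.toReal + N.toReal := by
      have := congrArg ENNReal.toReal hsum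
      rwa [ENNReal.toReal_add hPt ENNReal.ofReal_ne_top, ENNReal.toReal_add hJt hNt,
        ENNReal.toReal_ofReal hlog2.le] at this
    rw [← EReal.coe_ennreal_toReal hPt, ← EReal.coe_ennreal_toReal hNt,
      ← EReal.coe_ennreal_toReal hJt, ← EReal.coe_sub, ← EReal.coe_sub]
    congr 1
    linarith

end Bridge

/-- From energies in the model space to capacities in `ℝⁿ`. -/
theorem transfer {H : Type*} [NormedAddCommGroup H] [InnerProductSpace ℝ H]
    [FiniteDimensional ℝ H] [MeasurableSpace H] [BorelSpace H] {n : ℕ}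
    (hn : Module.finrank ℝ H = n) {c : ℝ} {e : ℝ} (hec : e < c) (he : 0 ≤ e)
    (hball : ∀ μ : Measure H, IsProbabilityMeasure μ → (∀ᵐ x ∂μ, ‖x‖ ≤ 1) →
      ENNReal.ofReal c ≤ ∫⁻ x, ∫⁻ y, lk x y ∂μ ∂μ)
    {K : Set H} (hK : IsCompact K) (hdiam : Metric.diam K = 2)
    (hdist : ∀ x ∈ K, ∀ y ∈ K, dist x y ≤ 2)
    {ν : Measure H} [IsProbabilityMeasure ν] (hν : ν Kᶜ = 0)
    (hνe : ∫⁻ x, ∫⁻ y, lk x y ∂ν ∂ν ≤ ENNReal.ofReal e) :
    SymmetryBroken n := by
  let φ : H ≃ₗᵢ[ℝ] EuclideanSpace ℝ (Fin n) :=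
    ((stdOrthonormalBasis ℝ H).reindex (finCongr hn)).repr
  have hφm : Measurable φ := φ.continuous.measurable
  have hφsm : Measurable φ.symm := φ.symm.continuous.measurable
  have hlkφ : ∀ x y : H, lk (φ x) (φ y) = lk x y := by
    intro x y
    unfold lk
    by_cases h : x = y
    · rw [if_pos h, if_pos (by rw [h])]
    · rw [if_neg h, if_neg (fun h' => h (φ.injective h')), ← map_sub, φ.norm_map]
  have hlkφs : ∀ x y : EuclideanSpace ℝ (Fin n), lk (φ.symm x) (φ.symm y) = lk x y := by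
    intro x y
    rw [← hlkφ, φ.apply_symm_apply, φ.apply_symm_apply]
  refine ⟨φ '' K, hK.image φ.continuous, ?_, ?_⟩
  · rw [← hdiam]
    exact φ.isometry.diam_image K
  · unfold logCap
    refine EReal.exp_strictMono (EReal.neg_lt_neg_iff.2 ?_)
    -- the competitor
    have h1 : (⨅ μ ∈ {μ : Measure (EuclideanSpace ℝ (Fin n)) |
        IsProbabilityMeasure μ ∧ μ (φ '' K)ᶜ = 0}, logEnergy μ) ≤
        ((e - Real.log 2 : ℝ) : EReal) := by
      have hp : IsProbabilityMeasure (ν.map φ) := Measure.isProbabilityMeasure_map hφm.aemeasurable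
      have hKc : ν.map φ (φ '' K)ᶜ = 0 := by
        rw [Measure.map_apply hφm (hK.image φ.continuous).measurableSet.compl, preimage_compl,
          preimage_image_eq K φ.injective]
        exact hν
      refine (iInf₂_le (ν.map φ) ⟨hp, hKc⟩).trans ?_
      have hd : ∀ x ∈ φ '' K, ∀ y ∈ φ '' K, dist x y ≤ 2 := by
        rintro _ ⟨x, hx, rfl⟩ _ ⟨y, hy, rfl⟩
        rw [φ.dist_map]
        exact hdist x hx y hy
      rw [logEnergy_eq hd (ν.map φ) hKc]
      have h2 : ∫⁻ x, ∫⁻ y, lk x y ∂(ν.map φ) ∂(ν.map φ) = ∫⁻ x, ∫⁻ y, lk x y ∂ν ∂ν := by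
        have hm : Measurable (fun x : EuclideanSpace ℝ (Fin n) => ∫⁻ y, lk x y ∂(ν.map φ)) :=
          Measurable.lintegral_prod_right' (f := uncurry lk) measurable_lk
        rw [lintegral_map hm hφm]
        refine lintegral_congr fun x => ?_
        rw [lintegral_map (measurable_lk.of_uncurry_left (x := φ x)) hφm]
        exact lintegral_congr fun y => hlkφ x y
      rw [h2]
      have h3 : ((∫⁻ x, ∫⁻ y, lk x y ∂ν ∂ν : ℝ≥0∞) : EReal) ≤ ((e : ℝ) : EReal) := by
        have h4 : ((ENNReal.ofReal e : ℝ≥0∞) : EReal) = ((e : ℝ) : EReal) := by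
          rw [EReal.coe_ennreal_ofReal, max_eq_left he]
        rw [← h4]
        exact EReal.coe_ennreal_le_coe_ennreal_iff.2 hνe
      rw [EReal.coe_sub]
      exact EReal.sub_le_sub h3 le_rfl
    -- the ball
    have h2 : ((c - Real.log 2 : ℝ) : EReal) ≤ ⨅ μ ∈ {μ : Measure (EuclideanSpace ℝ (Fin n)) |
        IsProbabilityMeasure μ ∧ μ (Metric.closedBall 0 1)ᶜ = 0}, logEnergy μ := by
      refine le_iInf₂ fun μ hμ => ?_
      obtain ⟨hμp, hμB⟩ := hμ
      have hd : ∀ x ∈ Metric.closedBall (0 : EuclideanSpace ℝ (Fin n)) 1,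
          ∀ y ∈ Metric.closedBall (0 : EuclideanSpace ℝ (Fin n)) 1, dist x y ≤ 2 := by
        intro x hx y hy
        rw [mem_closedBall_zero_iff] at hx hy
        rw [dist_eq_norm]
        linarith [norm_sub_le x y]
      rw [logEnergy_eq hd μ hμB]
      have hp : IsProbabilityMeasure (μ.map φ.symm) :=
        Measure.isProbabilityMeasure_map hφsm.aemeasurable
      have hae : ∀ᵐ x ∂(μ.map φ.symm), ‖x‖ ≤ 1 := by
        rw [ae_map_iff hφsm.aemeasurable (measurableSet_le measurable_norm measurable_const)]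
        have h3 : ∀ᵐ x ∂μ, x ∈ Metric.closedBall (0 : EuclideanSpace ℝ (Fin n)) 1 := by
          rw [ae_iff]; exact hμB
        refine h3.mono fun x hx => ?_
        rw [mem_closedBall_zero_iff] at hx
        rwa [φ.symm.norm_map]
      have h4 := hball (μ.map φ.symm) hp hae
      have h5 : ∫⁻ x, ∫⁻ y, lk x y ∂(μ.map φ.symm) ∂(μ.map φ.symm) =
          ∫⁻ x, ∫⁻ y, lk x y ∂μ ∂μ := by
        have hm : Measurable (fun x : H => ∫⁻ y, lk x y ∂(μ.map φ.symm)) :=
          Measurable.lintegral_prod_right' (f := uncurry lk) measurable_lk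
        rw [lintegral_map hm hφsm]
        refine lintegral_congr fun x => ?_
        rw [lintegral_map (measurable_lk.of_uncurry_left (x := φ.symm x)) hφsm]
        exact lintegral_congr fun y => hlkφs x y
      rw [h5] at h4
      have h6 : ((c : ℝ) : EReal) ≤ ((∫⁻ x, ∫⁻ y, lk x y ∂μ ∂μ : ℝ≥0∞) : EReal) := by
        have h7 : ((c : ℝ) : EReal) = ((ENNReal.ofReal c : ℝ≥0∞) : EReal) := by
          rw [EReal.coe_ennreal_ofReal, max_eq_left (he.trans hec.le)]
        rw [h7]
        exact EReal.coe_ennreal_le_coe_ennreal_iff.2 h4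
      rw [EReal.coe_sub]
      exact EReal.sub_le_sub h6 le_rfl
    refine lt_of_le_of_lt h1 (lt_of_lt_of_le ?_ h2)
    exact EReal.coe_lt_coe_iff.2 (by linarith)

/-- **Symmetry is broken in dimensions three and four.** -/
theorem result : SymmetryBroken 3 ∧ SymmetryBroken 4 := by
  constructor
  · have hfin : Module.finrank ℝ (HH ℝ) = 3 := by
      rw [(WithLp.linearEquiv 2 ℝ (ℝ × ℂ)).finrank_eq, Module.finrank_prod,
        Complex.finrank_real_complex, Module.finrank_self]
    have hprob := mix_prob u3 ρ3 w3 w3_nonneg w3_sum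
    refine transfer (H := HH ℝ) (K := rset u3 ρ3) (ν := mix u3 ρ3 w3) hfin sum3_lt ?_
      (fun μ hμ h => energy3 μ h) (rset_compact u3 ρ3 d3) (rset_diam u3 ρ3 d3 (i₀ := 1) ?_)
      (rset_dist u3 ρ3 d3) (mix_support u3 ρ3 w3 ρ3_pos d3)
      (mix_energy u3 ρ3 w3 w3_nonneg ρ3_pos d3).le
    · refine Finset.sum_nonneg fun i _ => Finset.sum_nonneg fun j _ => ?_
      refine mul_nonneg (mul_nonneg (w3_nonneg i) (w3_nonneg j)) (ee_nonneg ?_ ?_)
      · have := ρ3_pos i
        positivity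
      · nlinarith [d3 i j, mul_pos (ρ3_pos i) (ρ3_pos j)]
    · norm_num [ρ3, rr]
  · have hfin : Module.finrank ℝ (HH ℂ) = 4 := by
      rw [(WithLp.linearEquiv 2 ℝ (ℂ × ℂ)).finrank_eq, Module.finrank_prod,
        Complex.finrank_real_complex]
    have hprob := mix_prob u4 ρ4 w4 w4_nonneg w4_sum
    refine transfer (H := HH ℂ) (K := rset u4 ρ4) (ν := mix u4 ρ4 w4) hfin sum4_lt ?_
      (fun μ hμ h => energy4 μ h) (rset_compact u4 ρ4 d4) (rset_diam u4 ρ4 d4 (i₀ := 0) rfl)
      (rset_dist u4 ρ4 d4) (mix_support u4 ρ4 w4 ρ4_pos d4)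
      (mix_energy u4 ρ4 w4 w4_nonneg ρ4_pos d4).le
    refine Finset.sum_nonneg fun i _ => Finset.sum_nonneg fun j _ => ?_
    refine mul_nonneg (mul_nonneg (w4_nonneg i) (w4_nonneg j)) (ee_nonneg ?_ ?_)
    · have := ρ4_pos i
      positivity
    · nlinarith [d4 i j, mul_pos (ρ4_pos i) (ρ4_pos j)]

end Pool.Agent.Results.MP_42a974_an.SymmBroken
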